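import Pool.Agent.Results.MP_0dac36_co.DegreeGame

/-!
Maker's minimum degree in the unbiased Maker-Breaker degree game: for every `c < 1/3` Maker, moving
first, can guarantee minimum degree at least `c * d` on every finite graph of minimum degree
`d ≥ d₀(c)`, whatever the number of vertices.
-/

set_option autoImplicit false
set_option linter.unusedSectionVars false
set_option linter.unusedVariables false

namespace Pool.Agent.Results.MP_e47675_co.MinDegree

open Pool.Agent.Results.MP_0dac36_co.DegreeGame (Q R nb mem_nb Q_singleton R_mono R_step R_init)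

/-- The degree of the vertex `v` in the graph whose edge set is `S`. -/
def degIn {V : Type*} [DecidableEq V] (S : Finset (Sym2 V)) (v : V) : ℕ :=
  (S.filter (fun e => v ∈ e)).card

/-- `Guarantees G k t M B`: in the Maker-Breaker degree game on `G`, in the position where Maker owns
the edges `M`, Breaker owns the edges `B`, and Maker is to move if `t` is true and Breaker is to move
if `t` is false, Maker can guarantee (whatever Breaker does) that, once every edge of `G` is claimed,
every vertex has degree at least `k` in Maker's graph. -/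
inductive Guarantees {V : Type*} [DecidableEq V] (G : SimpleGraph V) (k : ℝ) :
    Bool → Finset (Sym2 V) → Finset (Sym2 V) → Prop
  /-- The game is over (all edges are claimed) and every vertex has degree at least `k`. -/
  | finished (t : Bool) (M B : Finset (Sym2 V)) :
      (∀ e ∈ G.edgeSet, e ∈ M ∪ B) → (∀ v, k ≤ (degIn M v : ℝ)) → Guarantees G k t M B
  /-- Maker moves: he claims one unclaimed edge and reaches a position where he can guarantee `k`. -/
  | maker (M B : Finset (Sym2 V)) (e : Sym2 V) :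
      e ∈ G.edgeSet → e ∉ M ∪ B → Guarantees G k false (insert e M) B → Guarantees G k true M B
  /-- Breaker moves: there is an unclaimed edge, and whichever unclaimed edge he claims, Maker can
  guarantee `k` in the position reached. -/
  | breaker (M B : Finset (Sym2 V)) :
      (∃ e ∈ G.edgeSet, e ∉ M ∪ B) →
      (∀ e ∈ G.edgeSet, e ∉ M ∪ B → Guarantees G k true M (insert e B)) → Guarantees G k false M B

section Game

variable {V : Type*} [Fintype V] [DecidableEq V]

/-- number of elements of `S` in `A v` -/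
def cnt (A : V → Finset (Sym2 V)) (S : Finset (Sym2 V)) (v : V) : ℕ := (S ∩ A v).card

lemma cnt_insert (A : V → Finset (Sym2 V)) (S : Finset (Sym2 V)) {e : Sym2 V} (he : e ∉ S) (v : V) :
    cnt A (insert e S) v = cnt A S v + if e ∈ A v then 1 else 0 := by
  unfold cnt
  split_ifs with h
  · rw [Finset.insert_inter_of_mem h, Finset.card_insert_of_notMem]
    intro h2
    exact he (Finset.mem_inter.1 h2).1
  · rw [Finset.insert_inter_of_notMem h, add_zero]

/-- The dependency graph. -/
def dep (A : V → Finset (Sym2 V)) : SimpleGraph V where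
  Adj u v := u ≠ v ∧ s(u, v) ∈ A u ∧ s(u, v) ∈ A v
  symm := ⟨fun u v h => ⟨h.1.symm, by rw [Sym2.eq_swap]; exact h.2.2, by rw [Sym2.eq_swap]; exact h.2.1⟩⟩
  loopless := ⟨fun u h => h.1 rfl⟩

/-- The edge `e` of `G` is unclaimed. -/
def Free (G : SimpleGraph V) (M B : Finset (Sym2 V)) (e : Sym2 V) : Prop :=
  e ∈ G.edgeSet ∧ e ∉ M ∧ e ∉ B

/-- Some unclaimed edge lies in `A v`. -/
def Alive (G : SimpleGraph V) (A : V → Finset (Sym2 V)) (M B : Finset (Sym2 V)) (v : V) : Prop :=
  ∃ e, Free G M B e ∧ e ∈ A v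

open Classical in
/-- The weight of a vertex. -/
noncomputable def wt (G : SimpleGraph V) (A : V → Finset (Sym2 V)) (f0 x y : ℝ)
    (M B : Finset (Sym2 V)) (v : V) : ℝ :=
  if Alive G A M B v then f0 * x ^ cnt A B v * y ^ cnt A M v else 0

variable (G : SimpleGraph V) (A : V → Finset (Sym2 V))

lemma wt_nonneg {f0 x y : ℝ} (h0 : 0 ≤ f0) (hx : 0 ≤ x) (hy : 0 ≤ y)
    (M B : Finset (Sym2 V)) (v : V) : 0 ≤ wt G A f0 x y M B v := by
  unfold wt
  split_ifs
  · positivity
  · exact le_rfl

/-- effect of a Breaker edge `e` followed by a Maker edge `e'` -/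
lemma wt_le {f0 x y : ℝ} (h0 : 0 ≤ f0) (hx : 0 ≤ x) (hy : 0 ≤ y)
    {M B : Finset (Sym2 V)} {e e' : Sym2 V} (he : Free G M B e)
    (he' : Free G M (insert e B) e') (v : V) :
    wt G A f0 x y (insert e' M) (insert e B) v ≤
      wt G A f0 x y M B v * (if e ∈ A v then x else 1) * (if e' ∈ A v then y else 1) := by
  have hr : 0 ≤ wt G A f0 x y M B v * (if e ∈ A v then x else 1) *
      (if e' ∈ A v then y else 1) := by
    have := wt_nonneg G A h0 hx hy M B v
    apply mul_nonneg (mul_nonneg this _)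
    · split_ifs
      · exact hy
      · exact zero_le_one
    · split_ifs
      · exact hx
      · exact zero_le_one
  by_cases h : Alive G A (insert e' M) (insert e B) v
  · have h' : Alive G A M B v := by
      obtain ⟨e1, ⟨h1, h2, h3⟩, h4⟩ := h
      exact ⟨e1, ⟨h1, fun h => h2 (Finset.mem_insert_of_mem h),
        fun h => h3 (Finset.mem_insert_of_mem h)⟩, h4⟩
    unfold wt
    rw [if_pos h, if_pos h', cnt_insert A B he.2.2, cnt_insert A M he'.2.1]
    apply le_of_eq
    split_ifs <;> ring
  · unfold wt at hr ⊢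
    rw [if_neg h]
    exact hr

/-- a Maker edge only decreases the weights -/
lemma wt_le_maker {f0 x y : ℝ} (h0 : 0 ≤ f0) (hx : 0 ≤ x) (hy : 0 ≤ y) (hy1 : y ≤ 1)
    {M B : Finset (Sym2 V)} {e : Sym2 V} (he : Free G M B e) (v : V) :
    wt G A f0 x y (insert e M) B v ≤ wt G A f0 x y M B v := by
  by_cases h : Alive G A (insert e M) B v
  · have h' : Alive G A M B v := by
      obtain ⟨e1, ⟨h1, h2, h3⟩, h4⟩ := h
      exact ⟨e1, ⟨h1, fun h => h2 (Finset.mem_insert_of_mem h), h3⟩, h4⟩
    unfold wt
    rw [if_pos h, if_pos h', cnt_insert A M he.2.1]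
    have h1 : 0 ≤ f0 * x ^ cnt A B v * y ^ cnt A M v := by positivity
    split_ifs
    · rw [pow_succ]
      have := mul_le_mul_of_nonneg_left hy1 h1
      linarith
    · exact le_rfl
  · have := wt_nonneg G A h0 hx hy M B v
    unfold wt at this ⊢
    rw [if_neg h]
    exact this

lemma wt_dead {f0 x y : ℝ} {M B : Finset (Sym2 V)} {e' : Sym2 V} {v : V}
    (h : ¬ Alive G A M B v) : wt G A f0 x y (insert e' M) B v = 0 := by
  unfold wt
  rw [if_neg]
  rintro ⟨e1, ⟨h1, h2, h3⟩, h4⟩
  exact h ⟨e1, ⟨h1, fun h => h2 (Finset.mem_insert_of_mem h), h3⟩, h4⟩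

/-- Maker's invariant (Breaker to move). -/
structure Inv (f0 x y : ℝ) (K : ℕ) (M B : Finset (Sym2 V)) : Prop where
  reg : R (dep A) (wt G A f0 x y M B)
  degs : ∀ v, cnt A B v ≤ K
  subM : ∀ e ∈ M, e ∈ G.edgeSet
  subB : ∀ e ∈ B, e ∈ G.edgeSet
  disj : Disjoint M B

variable {G} {A}

lemma cnt_add_le {n : ℕ} (hA : ∀ v, (A v).card = n) {M B : Finset (Sym2 V)} (h : Disjoint M B)
    (v : V) : cnt A M v + cnt A B v ≤ n := by
  unfold cnt
  rw [← Finset.card_union_of_disjoint, ← hA v]
  · apply Finset.card_le_card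
    intro e he
    rcases Finset.mem_union.1 he with he | he
    · exact (Finset.mem_inter.1 he).2
    · exact (Finset.mem_inter.1 he).2
  · rw [Finset.disjoint_left] at h ⊢
    intro e he he'
    exact h (Finset.mem_inter.1 he).1 (Finset.mem_inter.1 he').1

lemma cnt_lt {f0 x y : ℝ} {K n : ℕ} (h0 : 0 ≤ f0) (hx : 0 ≤ x) (hy : 0 ≤ y) (hy1 : y ≤ 1)
    (hA : ∀ v, (A v).card = n)
    (hK : 1 ≤ f0 * x ^ K * y ^ (n - K)) {M B : Finset (Sym2 V)}
    (hI : Inv G A f0 x y K M B) {v : V} (hv : Alive G A M B v) : cnt A B v < K := by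
  rcases (hI.degs v).lt_or_eq with h | h
  · exact h
  · exfalso
    have h1 := hI.reg {v}
    rw [Q_singleton] at h1
    have h2 := cnt_add_le hA hI.disj v
    have h3 : y ^ (n - K) ≤ y ^ cnt A M v := pow_le_pow_of_le_one hy hy1 (by omega)
    have h4 : wt G A f0 x y M B v = f0 * x ^ K * y ^ cnt A M v := by
      unfold wt
      rw [if_pos hv, h]
    have h5 := mul_le_mul_of_nonneg_left h3 (mul_nonneg h0 (pow_nonneg hx K))
    rw [h4] at h1
    linarith

lemma cnts_insert {f0 x y : ℝ} {K n : ℕ} (h0 : 0 ≤ f0) (hx : 0 ≤ x) (hy : 0 ≤ y) (hy1 : y ≤ 1)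
    (hA : ∀ v, (A v).card = n)
    (hK : 1 ≤ f0 * x ^ K * y ^ (n - K)) {M B : Finset (Sym2 V)}
    (hI : Inv G A f0 x y K M B) {e : Sym2 V} (he : Free G M B e) (v : V) :
    cnt A (insert e B) v ≤ K := by
  rw [cnt_insert A B he.2.2]
  split_ifs with h
  · have := cnt_lt h0 hx hy hy1 hA hK hI ⟨e, he, h⟩
    omega
  · have := hI.degs v
    omega

/-- Maker's reply to the Breaker edge `e`. -/
lemma reply {f0 x y : ℝ} {K n : ℕ} (h0 : 0 ≤ f0) (hx : 1 ≤ x) (hy : 0 ≤ y) (hy1 : y ≤ 1)
    (hxy : x * (1 + y) ≤ 2) (hA : ∀ v, (A v).card = n) (hAv : ∀ v, ∀ e ∈ A v, v ∈ e)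
    (hK : 1 ≤ f0 * x ^ K * y ^ (n - K)) {M B : Finset (Sym2 V)}
    (hI : Inv G A f0 x y K M B) {e : Sym2 V} (he : Free G M B e)
    (hex : ∃ e', Free G M (insert e B) e') :
    ∃ e', Free G M (insert e B) e' ∧ Inv G A f0 x y K (insert e' M) (insert e B) := by
  have hx0 : 0 ≤ x := zero_le_one.trans hx
  have hfin : ∀ e', Free G M (insert e B) e' →
      R (dep A) (wt G A f0 x y (insert e' M) (insert e B)) →
      ∃ e', Free G M (insert e B) e' ∧ Inv G A f0 x y K (insert e' M) (insert e B) := by
    intro e' he' hR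
    refine ⟨e', he', hR, cnts_insert h0 hx0 hy hy1 hA hK hI he, ?_, ?_, ?_⟩
    · intro a ha
      rcases Finset.mem_insert.1 ha with rfl | ha
      · exact he'.1
      · exact hI.subM a ha
    · intro a ha
      rcases Finset.mem_insert.1 ha with rfl | ha
      · exact he.1
      · exact hI.subB a ha
    · rw [Finset.disjoint_insert_left]
      refine ⟨he'.2.2, ?_⟩
      rw [Finset.disjoint_insert_right]
      exact ⟨he.2.1, hI.disj⟩
  have hw := wt_nonneg G A h0 hx0 hy M B
  have hxy1 : x * y ≤ 1 := by nlinarith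
  -- a reply that serves every vertex hurt by `e` that is still alive
  have hall : ∀ e', Free G M (insert e B) e' →
      (∀ v, e ∈ A v → Alive G A M (insert e B) v → e' ∈ A v) →
      ∃ e', Free G M (insert e B) e' ∧ Inv G A f0 x y K (insert e' M) (insert e B) := by
    intro e' he' hc
    apply hfin e' he'
    apply R_mono (dep A) hI.reg
    intro v
    by_cases hv : e ∈ A v
    · by_cases hAl : Alive G A M (insert e B) v
      · have h1 := wt_le G A h0 hx0 hy he he' v
        rw [if_pos hv, if_pos (hc v hv hAl)] at h1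
        have h2 := mul_le_mul_of_nonneg_left hxy1 (hw v)
        linarith
      · rw [wt_dead G A hAl]
        exact hw v
    · have h1 := wt_le G A h0 hx0 hy he he' v
      rw [if_neg hv] at h1
      have h2 : (if e' ∈ A v then y else 1) ≤ 1 := by
        split_ifs
        · exact hy1
        · exact le_rfl
      have h3 := mul_le_mul_of_nonneg_left h2 (hw v)
      linarith
  obtain ⟨e0, he0⟩ := hex
  revert he hall hfin e0 he0
  induction e using Sym2.ind with
  | _ a b =>
    intro he hfin hall e0 he0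
    have hne : a ≠ b := by
      have h1 : G.Adj a b := he.1
      exact h1.ne
    have hmem : ∀ v, s(a, b) ∈ A v → v = a ∨ v = b := by
      intro v hv
      exact Sym2.mem_iff.1 (hAv v _ hv)
    by_cases hAa : s(a, b) ∈ A a ∧ Alive G A M (insert s(a, b) B) a
    · by_cases hAb : s(a, b) ∈ A b ∧ Alive G A M (insert s(a, b) B) b
      · obtain ⟨haa, e1, he1, ha1⟩ := hAa
        obtain ⟨hbb, e2, he2, hb2⟩ := hAb
        have hab : (dep A).Adj a b := ⟨hne, haa, hbb⟩
        set w := wt G A f0 x y M B with hwdef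
        set g₁ : V → ℝ := fun v => w v * (if s(a, b) ∈ A v then x else 1) *
          (if v = a then y else 1) with hg1
        set g₂ : V → ℝ := fun v => w v * (if s(a, b) ∈ A v then x else 1) *
          (if v = b then y else 1) with hg2
        have e1a : g₁ a = w a * x * y := by simp [hg1, haa]
        have e1b : g₁ b = w b * x := by simp [hg1, hbb, hne.symm]
        have e2a : g₂ a = w a * x := by simp [hg2, haa, hne]
        have e2b : g₂ b = w b * x * y := by simp [hg2, hbb]
        have h1 : ∀ v, v ≠ a → v ≠ b → g₁ v = w v := by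
          intro v hva hvb
          have : s(a, b) ∉ A v := fun h => by
            rcases hmem v h with h | h
            · exact hva h
            · exact hvb h
          simp [hg1, this, hva]
        have h2 : ∀ v, v ≠ a → v ≠ b → g₂ v = w v := by
          intro v hva hvb
          have : s(a, b) ∉ A v := fun h => by
            rcases hmem v h with h | h
            · exact hva h
            · exact hvb h
          simp [hg2, this, hvb]
        have hwx : ∀ v, 0 ≤ w v * x := fun v => mul_nonneg (hw v) hx0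
        have hwxy : ∀ v, 0 ≤ w v * x * y := fun v => mul_nonneg (hwx v) hy
        have hs := R_step (dep A) hw hI.reg hab h1 h2 (e1a ▸ hwxy a) (e1b ▸ hwx b) (e2a ▸ hwx a)
          (e2b ▸ hwxy b)
          (by rw [e1a, e2a]; have := mul_le_mul_of_nonneg_left hxy (hw a); linarith)
          (by rw [e1b, e2b]; have := mul_le_mul_of_nonneg_left hxy (hw b); linarith)
        have hcmp : ∀ (c : V) (e' : Sym2 V), e' ∈ A c → ∀ v : V,
            (if e' ∈ A v then y else 1) ≤ (if v = c then y else 1) := by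
          intro c e' hc v
          by_cases hv : v = c
          · rw [if_pos hv, if_pos (hv ▸ hc)]
          · rw [if_neg hv]
            split_ifs
            · exact hy1
            · exact le_rfl
        have hnn : ∀ v, 0 ≤ w v * (if s(a, b) ∈ A v then x else 1) := by
          intro v
          apply mul_nonneg (hw v)
          split_ifs
          · exact hx0
          · exact zero_le_one
        rcases hs with hs | hs
        · apply hfin e1 he1
          apply R_mono (dep A) hs
          intro v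
          exact (wt_le G A h0 hx0 hy he he1 v).trans
            (mul_le_mul_of_nonneg_left (hcmp a e1 ha1 v) (hnn v))
        · apply hfin e2 he2
          apply R_mono (dep A) hs
          intro v
          exact (wt_le G A h0 hx0 hy he he2 v).trans
            (mul_le_mul_of_nonneg_left (hcmp b e2 hb2 v) (hnn v))
      · obtain ⟨haa, e1, he1, ha1⟩ := hAa
        apply hall e1 he1
        intro v hv hAl
        rcases hmem v hv with rfl | rfl
        · exact ha1
        · exact absurd ⟨hv, hAl⟩ hAb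
    · by_cases hAb : s(a, b) ∈ A b ∧ Alive G A M (insert s(a, b) B) b
      · obtain ⟨hbb, e2, he2, hb2⟩ := hAb
        apply hall e2 he2
        intro v hv hAl
        rcases hmem v hv with rfl | rfl
        · exact absurd ⟨hv, hAl⟩ hAa
        · exact hb2
      · apply hall e0 he0
        intro v hv hAl
        rcases hmem v hv with rfl | rfl
        · exact absurd ⟨hv, hAl⟩ hAa
        · exact absurd ⟨hv, hAl⟩ hAb

lemma le_degIn (hAv : ∀ v, ∀ e ∈ A v, v ∈ e) (M : Finset (Sym2 V)) (v : V) :
    cnt A M v ≤ degIn M v := by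
  unfold cnt degIn
  apply Finset.card_le_card
  intro e he
  rw [Finset.mem_inter] at he
  rw [Finset.mem_filter]
  exact ⟨he.1, hAv v e he.2⟩

/-- when everything is claimed the bound holds -/
lemma final_bound {K n : ℕ} (hA : ∀ v, (A v).card = n) (hAv : ∀ v, ∀ e ∈ A v, v ∈ e)
    (hAG : ∀ v, ∀ e ∈ A v, e ∈ G.edgeSet) {M B : Finset (Sym2 V)}
    (hall : ∀ e ∈ G.edgeSet, e ∈ M ∪ B) (v : V) (hB : cnt A B v ≤ K) :
    n - K ≤ degIn M v := by
  have h1 : (A v) ⊆ (M ∩ A v) ∪ (B ∩ A v) := by
    intro e he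
    rw [Finset.mem_union, Finset.mem_inter, Finset.mem_inter]
    rcases Finset.mem_union.1 (hall e (hAG v e he)) with h | h
    · exact Or.inl ⟨h, he⟩
    · exact Or.inr ⟨h, he⟩
  have h2 := (Finset.card_le_card h1).trans (Finset.card_union_le _ _)
  have h3 := le_degIn hAv M v
  unfold cnt at h3 hB
  rw [hA v] at h2
  omega

lemma guarantees {f0 x y k : ℝ} {K n : ℕ} (h0 : 0 ≤ f0) (hx : 1 ≤ x) (hy : 0 ≤ y) (hy1 : y ≤ 1)
    (hxy : x * (1 + y) ≤ 2) (hA : ∀ v, (A v).card = n) (hAv : ∀ v, ∀ e ∈ A v, v ∈ e)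
    (hAG : ∀ v, ∀ e ∈ A v, e ∈ G.edgeSet)
    (hK : 1 ≤ f0 * x ^ K * y ^ (n - K)) (hk : k ≤ ((n - K : ℕ) : ℝ)) (N : ℕ) :
    ∀ M B : Finset (Sym2 V), ((Finset.univ : Finset (Sym2 V)) \ (M ∪ B)).card ≤ N →
      Inv G A f0 x y K M B → Guarantees G k false M B := by
  have hx0 : 0 ≤ x := zero_le_one.trans hx
  have hfin : ∀ (t : Bool) (M B : Finset (Sym2 V)), (∀ e ∈ G.edgeSet, e ∈ M ∪ B) →
      (∀ v, cnt A B v ≤ K) → Guarantees G k t M B := by
    intro t M B hall hB
    apply Guarantees.finished t M B hall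
    intro v
    refine hk.trans ?_
    exact_mod_cast final_bound hA hAv hAG hall v (hB v)
  induction N with
  | zero =>
    intro M B hN hI
    have h1 := Finset.card_eq_zero.1 (Nat.le_zero.1 hN)
    apply hfin false M B _ hI.degs
    intro e he
    by_contra hc
    have : e ∈ (Finset.univ : Finset (Sym2 V)) \ (M ∪ B) :=
      Finset.mem_sdiff.2 ⟨Finset.mem_univ _, hc⟩
    rw [h1] at this
    exact absurd this (Finset.notMem_empty e)
  | succ N ih =>
    intro M B hN hI
    by_cases hex : ∃ e ∈ G.edgeSet, e ∉ M ∪ B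
    · apply Guarantees.breaker M B hex
      intro e he heMB
      rw [Finset.mem_union, not_or] at heMB
      have hfree : Free G M B e := ⟨he, heMB.1, heMB.2⟩
      by_cases hex' : ∃ e', Free G M (insert e B) e'
      · obtain ⟨e', he', hI'⟩ := reply h0 hx hy hy1 hxy hA hAv hK hI hfree hex'
        apply Guarantees.maker M (insert e B) e' he'.1
        · rw [Finset.mem_union, not_or]
          exact ⟨he'.2.1, he'.2.2⟩
        · apply ih _ _ _ hI'
          have hlt : (Finset.univ \ (insert e' M ∪ insert e B)) ⊂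
              ((Finset.univ : Finset (Sym2 V)) \ (M ∪ B)) := by
            rw [Finset.ssubset_iff_of_subset]
            · refine ⟨e, ?_, ?_⟩
              · rw [Finset.mem_sdiff, Finset.mem_union, not_or]
                exact ⟨Finset.mem_univ _, heMB.1, heMB.2⟩
              · rw [Finset.mem_sdiff, not_and, not_not]
                intro _
                exact Finset.mem_union_right _ (Finset.mem_insert_self _ _)
            · apply Finset.sdiff_subset_sdiff le_rfl
              exact Finset.union_subset_union (Finset.subset_insert _ _) (Finset.subset_insert _ _)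
          have := Finset.card_lt_card hlt
          omega
      · apply hfin true M (insert e B) _ (cnts_insert h0 hx0 hy hy1 hA hK hI hfree)
        intro e1 he1
        by_contra hc
        rw [Finset.mem_union, not_or] at hc
        exact hex' ⟨e1, he1, hc.1, hc.2⟩
    · push Not at hex
      exact hfin false M B hex hI.degs

/-- The main bound for one graph. -/
lemma bound {x y k : ℝ} {K n : ℕ} (hn : 1 ≤ n) (hx : 1 ≤ x) (hy : 0 ≤ y) (hy1 : y ≤ 1)
    (hxy : x * (1 + y) ≤ 2) (hK : 1 ≤ 1 / (4 * n) * x ^ K * y ^ (n - K))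
    (hk : k ≤ ((n - K : ℕ) : ℝ))
    [DecidableRel G.Adj] (hG : ∀ v, n ≤ G.degree v) : Guarantees G k true ∅ ∅ := by
  have h0 : (0:ℝ) ≤ 1 / (4 * n) := by positivity
  have hx0 : 0 ≤ x := zero_le_one.trans hx
  choose A hA1 hA2 using fun v => Finset.exists_subset_card_eq
    (show n ≤ (G.incidenceFinset v).card by rw [G.card_incidenceFinset_eq_degree]; exact hG v)
  have hAv : ∀ v, ∀ e ∈ A v, v ∈ e := by
    intro v e he
    have := hA1 v he
    rw [SimpleGraph.mem_incidenceFinset] at this
    exact this.2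
  have hAG : ∀ v, ∀ e ∈ A v, e ∈ G.edgeSet := by
    intro v e he
    have := hA1 v he
    rw [SimpleGraph.mem_incidenceFinset] at this
    exact this.1
  have hnb : ∀ v, (nb (dep A) v).card ≤ n := by
    intro v
    rw [← hA2 v]
    apply Finset.card_le_card_of_injOn (fun u => s(v, u))
    · intro u hu
      have hu' : u ∈ nb (dep A) v := hu
      rw [mem_nb] at hu'
      exact hu'.2.1
    · intro u hu u' hu' h
      simp only [Sym2.eq_iff, true_and] at h
      rcases h with h | h
      · exact h
      · exact h.2.trans h.1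
  have hR0 : R (dep A) (wt G A (1 / (4 * n)) x y ∅ ∅) := by
    apply R_init (dep A) hn
    · intro v
      unfold wt
      split_ifs
      · simp [cnt]
      · exact h0
    · exact hnb
  have hcnt0 : ∀ v, cnt A ∅ v = 0 := by
    intro v
    simp [cnt]
  by_cases hex : ∃ e ∈ G.edgeSet, e ∉ (∅ ∪ ∅ : Finset (Sym2 V))
  · obtain ⟨e, he, heMB⟩ := hex
    apply Guarantees.maker ∅ ∅ e he heMB
    have hfree : Free G ∅ ∅ e := ⟨he, by simp, by simp⟩
    apply guarantees h0 hx hy hy1 hxy hA2 hAv hAG hK hk _ _ _ le_rfl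
    refine ⟨?_, ?_, ?_, by simp, by simp⟩
    · apply R_mono (dep A) hR0
      intro v
      exact wt_le_maker G A h0 hx0 hy hy1 hfree v
    · intro v
      rw [hcnt0]
      exact Nat.zero_le _
    · intro a ha
      rw [Finset.mem_insert] at ha
      rcases ha with rfl | ha
      · exact he
      · exact absurd ha (Finset.notMem_empty a)
  · push Not at hex
    apply Guarantees.finished true ∅ ∅ hex
    intro v
    refine hk.trans ?_
    have := final_bound (K := K) hA2 hAv hAG hex v (by rw [hcnt0]; exact Nat.zero_le _)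
    exact_mod_cast this

end Game

/-- the numerical choice of the parameters -/
lemma params {c : ℝ} (hc : 2 / 3 < c) (hc1 : c < 1) : ∃ N : ℕ, ∀ n : ℕ, N ≤ n →
    ∃ (x y : ℝ) (K : ℕ), 1 ≤ n ∧ 1 ≤ x ∧ 0 ≤ y ∧ y ≤ 1 ∧ x * (1 + y) ≤ 2 ∧
      1 ≤ 1 / (4 * (n : ℝ)) * x ^ K * y ^ (n - K) ∧ K ≤ n ∧ (K : ℝ) ≤ c * n := by
  set s : ℝ := (3 * c - 2) / (4 * c) with hs
  have hcpos : 0 < c := by linarith
  have hs0 : 0 < s := div_pos (by linarith) (by linarith)
  have hs1 : s < 1 / 4 := by
    rw [hs, div_lt_div_iff₀ (by linarith) (by norm_num)]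
    linarith
  have hsc : 4 * c * s = 3 * c - 2 := by
    rw [hs]
    field_simp
  set x : ℝ := 1 / (1 - s) with hx
  set y : ℝ := 1 - 2 * s with hy
  have h1s : 0 < 1 - s := by linarith
  have hx1 : 1 ≤ x := by
    rw [hx, le_div_iff₀ h1s]
    linarith
  have hx0 : 0 < x := by linarith
  have hy0 : 0 < y := by linarith
  have hy1 : y ≤ 1 := by linarith
  have hxy : x * (1 + y) ≤ 2 := by
    rw [hx, hy]
    have : 1 / (1 - s) * (1 + (1 - 2 * s)) = 2 := by
      field_simp
      ring
    exact this.le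
  set A : ℝ := Real.log x with hA
  set B : ℝ := - Real.log y with hB
  have hAs : s ≤ A := by
    have h := Real.log_le_sub_one_of_pos h1s
    have h2 : A = - Real.log (1 - s) := by rw [hA, hx, one_div, Real.log_inv]
    linarith
  have hBs : B * y ≤ 2 * s := by
    have h := Real.one_sub_inv_le_log_of_pos hy0
    have h2 : B ≤ y⁻¹ - 1 := by linarith
    have h3 := mul_le_mul_of_nonneg_right h2 hy0.le
    have h4 : (y⁻¹ - 1) * y = 2 * s := by
      rw [sub_mul, inv_mul_cancel₀ hy0.ne', hy]
      ring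
    linarith
  have hB0 : 0 ≤ B := by
    rw [hB]
    have := Real.log_nonpos hy0.le hy1
    linarith
  have hA0 : 0 ≤ A := by linarith
  set δ : ℝ := c * A - (1 - c) * B with hδ
  have hδ0 : 0 < δ := by
    have h1 : 0 < δ * y := by
      have e : δ * y = c * (A * y) - (1 - c) * (B * y) := by rw [hδ]; ring
      rw [e]
      have h2 := mul_le_mul_of_nonneg_right hAs hy0.le
      have h3 := mul_le_mul_of_nonneg_left h2 hcpos.le
      have h4 := mul_le_mul_of_nonneg_left hBs (by linarith : 0 ≤ 1 - c)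
      have h5 : c * (s * y) - (1 - c) * (2 * s) = s * ((3 * c - 2) - 2 * c * s) := by
        rw [hy]
        ring
      have h6 : 0 < s * ((3 * c - 2) - 2 * c * s) := by
        apply mul_pos hs0
        nlinarith
      linarith
    exact (pos_iff_pos_of_mul_pos h1).2 hy0
  have hlog : ∀ᶠ t : ℝ in Filter.atTop, ‖Real.log t‖ ≤ δ / 8 * ‖t‖ :=
    (Real.isLittleO_log_id_atTop).def (by linarith)
  obtain ⟨T, hT⟩ := Filter.eventually_atTop.1 hlog
  obtain ⟨N1, hN1⟩ := exists_nat_ge T
  obtain ⟨N2, hN2⟩ := exists_nat_ge (2 * (A + B) / δ)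
  refine ⟨N1 + N2 + 1, fun n hn => ?_⟩
  have hn1 : 1 ≤ n := by omega
  have hnr : (1:ℝ) ≤ n := by exact_mod_cast hn1
  have hnN1 : (N1:ℝ) ≤ n := by exact_mod_cast (by omega : N1 ≤ n)
  have hnN2 : (N2:ℝ) ≤ n := by exact_mod_cast (by omega : N2 ≤ n)
  set K : ℕ := ⌊c * n⌋₊ with hK
  have hcn : 0 ≤ c * n := by positivity
  have hK1 : (K:ℝ) ≤ c * n := Nat.floor_le hcn
  have hK2 : c * n < K + 1 := Nat.lt_floor_add_one _
  have hKn : K ≤ n := by
    have h1 : (K:ℝ) ≤ n := by nlinarith
    exact_mod_cast h1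
  have hcast : ((n - K : ℕ) : ℝ) = n - K := by
    rw [Nat.cast_sub hKn]
  refine ⟨x, y, K, hn1, hx1, hy0.le, hy1, hxy, ?_, hKn, hK1⟩
  have hpos : 0 < 1 / (4 * (n:ℝ)) * x ^ K * y ^ (n - K) := by positivity
  rw [← Real.log_nonneg_iff hpos]
  have h4n : (0:ℝ) < 4 * n := by positivity
  rw [Real.log_mul (by positivity) (by positivity), Real.log_mul (by positivity)
    (by positivity), Real.log_pow, Real.log_pow, one_div, Real.log_inv, hcast, ← hA]
  have e1 : Real.log y = - B := by rw [hB]; ring
  rw [e1]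
  have h1 := hT (4 * n) (by linarith)
  rw [Real.norm_eq_abs, Real.norm_eq_abs, abs_of_pos h4n] at h1
  have h2 : Real.log (4 * n) ≤ δ / 8 * (4 * n) := (le_abs_self _).trans h1
  have h3 : 2 * (A + B) ≤ δ * n := by
    have h5 : 2 * (A + B) / δ ≤ n := hN2.trans hnN2
    rw [div_le_iff₀ hδ0] at h5
    linarith
  have h4 : (c * n - 1) * A ≤ K * A := mul_le_mul_of_nonneg_right (by linarith) hA0
  have h5 : ((n:ℝ) - K) * B ≤ (n - c * n + 1) * B :=
    mul_le_mul_of_nonneg_right (by linarith) hB0
  have h6 : δ * n = c * n * A - (1 - c) * n * B := by rw [hδ]; ring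
  nlinarith

/-- **Answer to the question: yes.** For every `c < 1/3` there is `d₀` such that for every `d ≥ d₀`
and every finite graph `G` with all degrees at least `d` Maker, moving first, can guarantee minimum
degree at least `c * d` in his graph; in particular there are `ε > 0` and `d₀` such that for every
`d ≥ d₀` and every finite graph of minimum degree `d` Maker can guarantee `(1/4 + ε) d`. -/
theorem result :
    (∀ c : ℝ, c < 1 / 3 → ∃ d₀ : ℕ, ∀ d : ℕ, d₀ ≤ d →
      ∀ (V : Type) [Fintype V] [DecidableEq V] (G : SimpleGraph V) [DecidableRel G.Adj],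
        (∀ v, d ≤ G.degree v) → Guarantees G (c * d) true ∅ ∅) ∧
    (∃ (ε : ℝ) (d₀ : ℕ), 0 < ε ∧ ∀ d : ℕ, d₀ ≤ d →
      ∀ (V : Type) [Fintype V] [DecidableEq V] [Nonempty V] (G : SimpleGraph V)
        [DecidableRel G.Adj],
        G.minDegree = d → Guarantees G ((1 / 4 + ε) * d) true ∅ ∅) := by
  have main : ∀ c : ℝ, c < 1 / 3 → ∃ d₀ : ℕ, ∀ d : ℕ, d₀ ≤ d →
      ∀ (V : Type) [Fintype V] [DecidableEq V] (G : SimpleGraph V) [DecidableRel G.Adj],
        (∀ v, d ≤ G.degree v) → Guarantees G (c * d) true ∅ ∅ := by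
    intro c hc
    set c' : ℝ := max c 0 with hc'
    have hc'1 : c' < 1 / 3 := max_lt hc (by norm_num)
    have hc'0 : 0 ≤ c' := le_max_right _ _
    obtain ⟨N, hN⟩ := params (c := (1 - c' + 2 / 3) / 2) (by linarith) (by linarith)
    refine ⟨N, fun d hd V _ _ G _ hG => ?_⟩
    obtain ⟨x, y, K, hn, hx, hy, hy1, hxy, hK, hKn, hKc⟩ := hN d hd
    apply bound hn hx hy hy1 hxy hK _ hG
    rw [Nat.cast_sub hKn]
    have hd0 : (0:ℝ) ≤ d := Nat.cast_nonneg d
    have h1 : c * d ≤ c' * d := mul_le_mul_of_nonneg_right (le_max_left _ _) hd0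
    nlinarith
  refine ⟨main, ?_⟩
  obtain ⟨d₀, hd₀⟩ := main (1 / 4 + 1 / 24) (by norm_num)
  refine ⟨1 / 24, d₀, by norm_num, fun d hd V _ _ _ G _ hG => ?_⟩
  apply hd₀ d hd V G
  intro v
  rw [← hG]
  exact G.minDegree_le_degree v

end Pool.Agent.Results.MP_e47675_co.MinDegree
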